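import Mathlib
import Pool.Agent.Helper647.GR.ForceCH
import Pool.Agent.Results.MP_293d80_gt.CounterexampleUnderCH

/-!
# MP_293d80_gt, Q1: additivity of Split(Λ,Λ) is not provable in ZFC

The negated form of the question: it is consistent with ZFC that there are two sets of reals, both
with the property Split(Λ,Λ), whose union does not have this property.

(1) The continuum hypothesis holds in a forcing extension in which `ω₁` is preserved
(`Pool.Agent.Helper647.GR.ForceCH`; here `OmegaOnePreserved P` and `CHHolds P` are the sets of the
conditions of `P` which force that there is no map from `ℕ` onto `ω₁`, and that some family of subsets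
of `ℕ` indexed by `ω₁` contains every subset of `ℕ`).
(2) The continuum hypothesis implies that there are such sets of reals
(`Pool.Agent.Results.MP_293d80_gt.CounterexampleUnderCH`).
-/

set_option autoImplicit false

namespace Pool.Agent.Results.MP_293d80_gt.ConsistentlyNotAdditive

open Cardinal Pool.Agent.Helper647.GR.ForceCH
open Pool.Agent.Results.MP_293d80_gt.CounterexampleUnderCH (SplitLL)

/-- (1) Some forcing notion forces the continuum hypothesis and preserves `ω₁`. (2) The continuum
hypothesis (every subset of `ℕ` occurs in a family of subsets of `ℕ` indexed by `ω₁`) implies that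
there are sets of reals `X` and `Y` with the property Split(Λ,Λ) whose union does not have it. -/
theorem result :
    (∃ (P : Type) (_ : Preorder P), Nonempty P ∧ ∀ p : P,
      p ∈ OmegaOnePreserved P ∧ p ∈ CHHolds P) ∧
    ((∃ E : Om → Set ℕ, ∀ x : Set ℕ, ∃ a, E a = x) →
      ∃ X Y : Set ℝ, SplitLL X ∧ SplitLL Y ∧ ¬ SplitLL (X ∪ Y)) := by
  refine ⟨?_, ?_⟩
  · obtain ⟨P, hP, hne, h⟩ := exists_forcing
    exact ⟨P, hP, hne, fun p => ⟨(h p).1, (h p).2.2⟩⟩
  · rintro ⟨E, hE⟩
    refine CounterexampleUnderCH.result ?_
    have h1 : #(Set ℕ) ≤ #Om := mk_le_of_surjective hE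
    rw [mk_set, mk_nat] at h1
    rw [mk_toType, card_ord] at h1
    refine le_antisymm ?_ aleph_one_le_continuum
    rwa [two_power_aleph0] at h1

end Pool.Agent.Results.MP_293d80_gt.ConsistentlyNotAdditive
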